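import Pool.Agent.TH492.Sep

/-!
# Strong colouring numbers are polynomial in the radius and the shallow bramble number

Classes with polynomial expansion have polynomial strong colouring numbers
(`Pool.Agent.TH492.Col.uniform_of_polyExp`, proved in the helper files `Pool/Agent/TH492`), hence the
polynomial bound in terms of the radius and the bramble number asked for in the problem exists.
-/

set_option autoImplicit false

namespace Pool.Agent.Results.MP_9d6589_co.ScolBramble

open Pool.Agent.TH492.Col

/-- `S` is a nonempty vertex set inducing a connected graph of radius at most `r`: some vertex of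
`S` reaches each vertex of `S` by a walk of length at most `r` inside `S`. -/
def RadiusLE {n : ℕ} (G : SimpleGraph (Fin n)) (r : ℕ) (S : Set (Fin n)) : Prop :=
  ∃ x ∈ S, ∀ y ∈ S, ∃ p : G.Walk x y, p.length ≤ r ∧ ∀ w ∈ p.support, w ∈ S

/-- two vertex sets touch if they share a vertex or an edge of `G` joins them. -/
def Touch {n : ℕ} (G : SimpleGraph (Fin n)) (A B : Set (Fin n)) : Prop :=
  (∃ a, a ∈ A ∧ a ∈ B) ∨ ∃ a ∈ A, ∃ b ∈ B, G.Adj a b

/-- a depth `r` bramble: a family of pairwise touching connected vertex sets of radius at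
most `r`. -/
def IsBramble {n : ℕ} (G : SimpleGraph (Fin n)) (r : ℕ) (F : Set (Set (Fin n))) : Prop :=
  (∀ B ∈ F, RadiusLE G r B) ∧ ∀ A ∈ F, ∀ B ∈ F, Touch G A B

/-- the order of a family of vertex sets: the least size of a vertex set meeting every member. -/
noncomputable def order {n : ℕ} (F : Set (Set (Fin n))) : ℕ :=
  sInf {k | ∃ X : Finset (Fin n), X.card = k ∧ ∀ B ∈ F, ∃ x ∈ X, x ∈ B}

/-- the depth `r` bramble number: the largest order of a depth `r` bramble. -/
noncomputable def bn {n : ℕ} (r : ℕ) (G : SimpleGraph (Fin n)) : ℕ :=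
  sSup {k | ∃ F, IsBramble G r F ∧ order F = k}

/-- the orders of the depth `r` brambles are at most the number of vertices, so that the supremum
in the definition of `bn` is a maximum. -/
theorem order_le {n : ℕ} (r : ℕ) (G : SimpleGraph (Fin n)) {F : Set (Set (Fin n))}
    (hF : IsBramble G r F) : order F ≤ n := by
  apply Nat.sInf_le
  refine ⟨Finset.univ, by simp, ?_⟩
  intro B hB
  obtain ⟨x, hx, _⟩ := hF.1 B hB
  exact ⟨x, Finset.mem_univ _, hx⟩

/-- the maximum in the definition of `bn` is attained. -/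
theorem bn_mem {n : ℕ} (r : ℕ) (G : SimpleGraph (Fin n)) :
    ∃ F, IsBramble G r F ∧ order F = bn r G := by
  have h : bn r G ∈ {k | ∃ F, IsBramble G r F ∧ order F = k} := by
    apply Nat.sSup_mem
    · exact ⟨order ∅, ∅, ⟨fun B hB => absurd hB (Set.notMem_empty B),
        fun A hA => absurd hA (Set.notMem_empty A)⟩, rfl⟩
    · refine ⟨n, ?_⟩
      rintro k ⟨F, hF, rfl⟩
      exact order_le r G hF
  exact h

theorem strong_zero {n : ℕ} (G : SimpleGraph (Fin n)) (σ : Equiv.Perm (Fin n)) (u : Fin n) :
    (Strong G σ 0 u).ncard ≤ 1 := by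
  have : Strong G σ 0 u ⊆ {u} := by
    rintro v ⟨_, p, _, hp, _⟩
    have := SimpleGraph.Walk.eq_of_length_eq_zero (Nat.le_zero.1 hp)
    simp [this]
  refine (Set.ncard_le_ncard this (Set.toFinite _)).trans ?_
  simp

/-- For every class `C` of finite graphs with polynomial expansion there is a polynomial `f` in two
variables such that the strong `r`-colouring number of every graph `G` of the class is at
most `f (r, bn_r G)`, for all integers `r ≥ 0`. -/
theorem result (C : (n : ℕ) → SimpleGraph (Fin n) → Prop) (hC : PolyExpansion C) :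
    ∃ f : MvPolynomial (Fin 2) ℝ, ∀ (r n : ℕ) (G : SimpleGraph (Fin n)), C n G →
      (col r G : ℝ) ≤ MvPolynomial.eval ![(r : ℝ), (bn r G : ℝ)] f := by
  obtain ⟨c, K, h⟩ := uniform_of_polyExp hC
  obtain ⟨a, k, hak⟩ := rpow_bound c K
  refine ⟨MvPolynomial.C (a : ℝ) * MvPolynomial.X 0 ^ k + 1, ?_⟩
  intro r n G hG
  obtain ⟨σ, hσ⟩ := h n G hG
  have hev : MvPolynomial.eval ![(r : ℝ), (bn r G : ℝ)]
      (MvPolynomial.C (a : ℝ) * MvPolynomial.X 0 ^ k + 1) = a * (r : ℝ) ^ k + 1 := by
    simp
  rw [hev]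
  rcases Nat.eq_zero_or_pos r with rfl | hr
  · have h1 : col 0 G ≤ 1 := Nat.sInf_le ⟨σ, fun u => strong_zero G σ u⟩
    have h2 : (col 0 G : ℝ) ≤ 1 := by exact_mod_cast h1
    have h3 : (0 : ℝ) ≤ a * ((0 : ℕ) : ℝ) ^ k := by positivity
    linarith
  · have h1 : col r G ≤ a * r ^ k + 1 := by
      apply Nat.sInf_le
      refine ⟨σ, fun u => ?_⟩
      have h2 := (hσ r hr u).trans (hak r hr)
      have h3 : ((Strong G σ r u).ncard : ℝ) ≤ ((a * r ^ k : ℕ) : ℝ) := by
        push_cast
        exact h2
      have h4 : (Strong G σ r u).ncard ≤ a * r ^ k := by exact_mod_cast h3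
      omega
    have h2 : (col r G : ℝ) ≤ ((a * r ^ k + 1 : ℕ) : ℝ) := by exact_mod_cast h1
    push_cast at h2
    exact h2

end Pool.Agent.Results.MP_9d6589_co.ScolBramble
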